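import Pool.Agent.W544.K3.Defs2
import Pool.Agent.W481.K3.RK
import Pool.Agent.W505.K3.Struct

/-! K3-RIGID: isomorphisms of `so(B)` and `so(B')` come from isometries. -/

open Module Finset

namespace Pool.W335.K3

open Pool.Agent.W544.K3
open Pool.Agent.W481.K3 (zc zc_apply dec zc_e zc_f zc_of zc_self_e zc_self_f comm_wedge
  wedge_add_left wedge_smul_left wedge_add_right wedge_smul_right wedge_self wedge_swap wedge_skew
  ev ev_zero xe xf xz diag_x hom_apply deg_neg)

noncomputable section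

variable {U : Type} [AddCommGroup U] [Module ℝ U] {B : U →ₗ[ℝ] U →ₗ[ℝ] ℝ} {e f : U}

lemma exists_orth [FiniteDimensional ℝ U] {m : ℕ} (w : Fin m → U) (h : m < finrank ℝ U) :
    ∃ v : U, v ≠ 0 ∧ ∀ i, B (w i) v = 0 := by
  have h1 : LinearMap.ker (LinearMap.pi (fun i => B (w i)) : U →ₗ[ℝ] (Fin m → ℝ)) ≠ ⊥ :=
    LinearMap.ker_ne_bot_of_finrank_lt (by simpa using h)
  obtain ⟨v, hv, hv0⟩ := (Submodule.ne_bot_iff _).1 h1
  rw [LinearMap.mem_ker] at hv
  exact ⟨v, hv0, fun i => congrFun hv i⟩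

lemma hom_key (_hs : ∀ u v, B u v = B v u) {x y : End ℝ U} (hx : Skew B x) {t : ℝ}
    (h : Pool.Agent.W544.K3.Hom x t y) {u v : U} {μ ν : ℝ} (hu : x u = μ • u) (hv : x v = ν • v) :
    (μ + ν + t) * B (y u) v = 0 := by
  have h1 := hom_apply h hu
  have h2 := hx (y u) v
  rw [h1, hv] at h2
  simp only [map_smul, LinearMap.smul_apply, smul_eq_mul] at h2
  linarith

/-- `ad h` has the eigenvalues `0, 1, -1` on skew operators -/
lemma tval (hs : ∀ u v, B u v = B v u) (hnd : ∀ v, (∀ u, B u v = 0) → v = 0) (H : Hyp B e f)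
    {y : End ℝ U} (hy : Skew B y) {t : ℝ} (h : Pool.Agent.W544.K3.Hom (wedge B f e) t y)
    (hy0 : y ≠ 0) : t = 0 ∨ t = 1 ∨ t = -1 := by
  by_contra hcon
  push Not at hcon
  obtain ⟨t0, t1, t2⟩ := hcon
  apply hy0
  have hsk := wedge_skew hs f e
  have He : wedge B f e e = (1 : ℝ) • e := by rw [xe hs H, one_smul]
  have Hf : wedge B f e f = (-1 : ℝ) • f := by rw [xf hs H, neg_smul, one_smul]
  have Hz : ∀ u, wedge B f e (zc B e f u) = (0 : ℝ) • zc B e f u := fun u => by
    rw [xz (zc_e hs H u) (zc_f hs H u), zero_smul]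
  have K := fun {u v : U} {μ ν : ℝ} (a : wedge B f e u = μ • u) (b : wedge B f e v = ν • v) =>
    hom_key hs hsk h a b
  have n1 : (1 : ℝ) + 0 + t ≠ 0 := fun h => t2 (by linarith)
  have n2 : (-1 : ℝ) + 0 + t ≠ 0 := fun h => t1 (by linarith)
  have ee : B (y e) e = 0 := by have := hy e e; rw [hs e (y e)] at this; linarith
  have ff : B (y f) f = 0 := by have := hy f f; rw [hs f (y f)] at this; linarith
  have ef : B (y e) f = 0 := by
    have := K He Hf; exact (mul_eq_zero.1 this).resolve_left (fun h => t0 (by linarith))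
  have fe : B (y f) e = 0 := by
    have := K Hf He; exact (mul_eq_zero.1 this).resolve_left (fun h => t0 (by linarith))
  have ez : ∀ u, B (y e) (zc B e f u) = 0 := fun u => by
    have := K He (Hz u); exact (mul_eq_zero.1 this).resolve_left (fun h => t2 (by linarith))
  have fz : ∀ u, B (y f) (zc B e f u) = 0 := fun u => by
    have := K Hf (Hz u); exact (mul_eq_zero.1 this).resolve_left (fun h => t1 (by linarith))
  have ze : ∀ u, B (y (zc B e f u)) e = 0 := fun u => by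
    have := K (Hz u) He; exact (mul_eq_zero.1 this).resolve_left (fun h => t2 (by linarith))
  have zf : ∀ u, B (y (zc B e f u)) f = 0 := fun u => by
    have := K (Hz u) Hf; exact (mul_eq_zero.1 this).resolve_left (fun h => t1 (by linarith))
  have zz : ∀ u v, B (y (zc B e f u)) (zc B e f v) = 0 := fun u v => by
    have := K (Hz u) (Hz v); exact (mul_eq_zero.1 this).resolve_left (fun h => t0 (by linarith))
  ext u
  apply hnd
  intro v
  rw [hs]
  conv_lhs => rw [dec B e f u, dec B e f v]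
  simp only [map_add, map_smul, LinearMap.add_apply, LinearMap.smul_apply, smul_eq_mul, ee, ff, ef,
    fe, ez, fz, ze, zf, zz, mul_zero, add_zero]

lemma hyp_swap (hs : ∀ u v, B u v = B v u) (H : Hyp B e f) : Hyp B f e :=
  ⟨H.2.1, H.1, by rw [hs f e]; exact H.2.2⟩

lemma hom_neg {x y : End ℝ U} {t : ℝ} (h : Pool.Agent.W544.K3.Hom x t y) :
    Pool.Agent.W544.K3.Hom (-x) (-t) y := by
  unfold Pool.Agent.W544.K3.Hom at *
  rw [neg_smul, ← h]
  noncomm_ring

lemma deg_pos (hs : ∀ u v, B u v = B v u) (H : Hyp B e f) {y : End ℝ U} (hy : Skew B y)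
    (h : Pool.Agent.W544.K3.Hom (wedge B f e) 1 y) :
    y = wedge B e (y f) ∧ B e (y f) = 0 ∧ B f (y f) = 0 := by
  have h1 : Pool.Agent.W544.K3.Hom (wedge B e f) (-1) y := by
    rw [wedge_swap]; exact hom_neg h
  refine ⟨deg_neg hs (hyp_swap hs H) hy h1, ?_⟩
  have h2 := hom_apply h (μ := -1) (u := f) (by rw [xf hs H]; simp)
  have h3 := ev hs H h2
  constructor
  · have := h3.2; linarith
  · have := h3.1; linarith

lemma hom_e (hs : ∀ u v, B u v = B v u) (H : Hyp B e f) {z : U} (h1 : B e z = 0) (h2 : B f z = 0) :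
    Pool.Agent.W544.K3.Hom (wedge B f e) 1 (wedge B e z) := by
  unfold Pool.Agent.W544.K3.Hom
  rw [comm_wedge hs (wedge_skew hs f e), xe hs H, xz h1 h2, one_smul]
  have : wedge B e 0 = 0 := by ext w; simp [wedge_apply]
  rw [this, add_zero]

lemma hom_zero (x y : End ℝ U) (h : Pool.Agent.W544.K3.Hom x 0 y) : x * y - y * x = 0 := by
  unfold Pool.Agent.W544.K3.Hom at h
  rw [h, zero_smul]

/-- two proportional linear maps -/
lemma scal {U' : Type} [AddCommGroup U'] [Module ℝ U'] (P Q : U →ₗ[ℝ] U') (Z : Submodule ℝ U)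
    (hP : ∀ z ∈ Z, P z = 0 → z = 0) (hQ : ∀ z ∈ Z, ∃ k : ℝ, Q z = k • P z) :
    ∃ k : ℝ, ∀ z ∈ Z, Q z = k • P z := by
  by_cases hZ : ∃ z0 ∈ Z, z0 ≠ 0
  · obtain ⟨z0, hz0, h0⟩ := hZ
    obtain ⟨k0, hk0⟩ := hQ z0 hz0
    refine ⟨k0, fun z hz => ?_⟩
    obtain ⟨k1, hk1⟩ := hQ z hz
    obtain ⟨k2, hk2⟩ := hQ (z + z0) (Z.add_mem hz hz0)
    have e1 : P ((k2 - k1) • z + (k2 - k0) • z0) = 0 := by
      rw [map_add, map_add, hk1, hk0] at hk2
      rw [map_add, map_smul, map_smul, sub_smul, sub_smul]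
      rw [smul_add] at hk2
      have : k2 • P z - k1 • P z + (k2 • P z0 - k0 • P z0) =
        (k2 • P z + k2 • P z0) - (k1 • P z + k0 • P z0) := by abel
      rw [this, ← hk2, sub_self]
    have e2 := hP _ (Z.add_mem (Z.smul_mem _ hz) (Z.smul_mem _ hz0)) e1
    by_cases hk : k2 = k1
    · rw [hk, sub_self, zero_smul, zero_add] at e2
      have e3 := (smul_eq_zero.1 e2).resolve_right h0
      rw [hk1, sub_eq_zero.1 e3]
    · have hk' : k2 - k1 ≠ 0 := sub_ne_zero.2 hk
      have e3 : z = (-(k2 - k0) / (k2 - k1)) • z0 := by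
        have : (k2 - k1) • z = -((k2 - k0) • z0) := eq_neg_of_add_eq_zero_left e2
        rw [div_eq_inv_mul, mul_smul, neg_smul, ← this, smul_smul, inv_mul_cancel₀ hk', one_smul]
      rw [e3, map_smul, map_smul, hk0, smul_comm]
  · push Not at hZ
    refine ⟨0, fun z hz => ?_⟩
    rw [hZ z hz, map_zero, map_zero, smul_zero]

/-- existence of a hyperbolic pair -/
lemma exists_hyp [FiniteDimensional ℝ U] (hS : Sig2 B) (hd : 3 ≤ finrank ℝ U) :
    ∃ e f : U, Hyp B e f := by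
  obtain ⟨hs, p, q, hp, hq, hpq, hneg⟩ := hS
  obtain ⟨v, hv0, hv⟩ := exists_orth (B := B) ![p, q] (show 2 < _ by omega)
  have h1 : B v p = 0 := by rw [hs]; exact hv 0
  have h2 : B v q = 0 := by rw [hs]; exact hv 1
  have h3 := hneg v hv0 h1 h2
  have h1' : B p v = 0 := by rw [hs]; exact h1
  set α : ℝ := (√(2 * B p p))⁻¹ with hα
  set β : ℝ := (√(-(2 * B v v)))⁻¹ with hβ
  have ha : α * α * B p p = 1 / 2 := by
    rw [hα, ← mul_inv, Real.mul_self_sqrt (by linarith)]
    field_simp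
  have hb : β * β * B v v = -(1 / 2) := by
    rw [hβ, ← mul_inv, Real.mul_self_sqrt (by linarith)]
    have : B v v ≠ 0 := h3.ne
    field_simp
  refine ⟨α • p + β • v, α • p - β • v, ?_, ?_, ?_⟩
  · simp only [map_add, map_smul, LinearMap.add_apply, LinearMap.smul_apply, smul_eq_mul, h1, h1']
    linarith
  · simp only [map_sub, map_smul, LinearMap.sub_apply, LinearMap.smul_apply, smul_eq_mul, h1, h1']
    linarith
  · simp only [map_add, map_sub, map_smul, LinearMap.add_apply, LinearMap.smul_apply, smul_eq_mul,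
      h1, h1']
    linarith

lemma form_dec (hs : ∀ u v, B u v = B v u) (H : Hyp B e f) (u v : U) :
    B u v = B f u * B e v + B e u * B f v + B (zc B e f u) (zc B e f v) := by
  conv_lhs => rw [dec B e f u, dec B e f v]
  obtain ⟨h1, h2, h3⟩ := H
  have a1 := zc_e hs ⟨h1, h2, h3⟩ u
  have a2 := zc_e hs ⟨h1, h2, h3⟩ v
  have a3 := zc_f hs ⟨h1, h2, h3⟩ u
  have a4 := zc_f hs ⟨h1, h2, h3⟩ v
  have a5 : B (zc B e f u) e = 0 := by rw [hs]; exact a1
  have a6 : B (zc B e f u) f = 0 := by rw [hs]; exact a3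
  simp only [map_add, map_smul, LinearMap.add_apply, LinearMap.smul_apply, smul_eq_mul, h1, h2, h3,
    hs f e, a2, a4, a5, a6, mul_zero, mul_one, add_zero, zero_add]
  ring

/-- a positive vector orthogonal to a hyperbolic pair -/
lemma posZ (hS : Sig2 B) (H : Hyp B e f) : ∃ z, B e z = 0 ∧ B f z = 0 ∧ 0 < B z z := by
  obtain ⟨hs, p, q, hp, hq, hpq, hneg⟩ := hS
  obtain ⟨c1, c2, hc, hne⟩ : ∃ c1 c2 : ℝ, B (e + f) (c1 • p + c2 • q) = 0 ∧ (c1 ≠ 0 ∨ c2 ≠ 0) := by
    by_cases h : B (e + f) p = 0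
    · exact ⟨1, 0, by rw [one_smul, zero_smul, add_zero]; exact h, Or.inl one_ne_zero⟩
    · refine ⟨B (e + f) q, - B (e + f) p, ?_, Or.inr (neg_ne_zero.2 h)⟩
      rw [map_add, map_smul, map_smul, smul_eq_mul, smul_eq_mul]
      ring
  set w := c1 • p + c2 • q with hw
  have h1 : 0 < B w w := by
    have : B w w = c1 ^ 2 * B p p + c2 ^ 2 * B q q := by
      have hqp : B q p = 0 := by rw [hs]; exact hpq
      rw [hw]
      simp only [map_add, map_smul, LinearMap.add_apply, LinearMap.smul_apply, smul_eq_mul, hpq,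
        hqp]
      ring
    rw [this]
    rcases hne with h | h
    · have := mul_pos (pow_pos (abs_pos.2 h) 2) hp
      rw [sq_abs] at this
      have : 0 ≤ c2 ^ 2 * B q q := by positivity
      linarith
    · have := mul_pos (pow_pos (abs_pos.2 h) 2) hq
      rw [sq_abs] at this
      have : 0 ≤ c1 ^ 2 * B p p := by positivity
      linarith
  refine ⟨zc B e f w, zc_e hs H w, zc_f hs H w, ?_⟩
  have h2 := form_dec hs H w w
  rw [map_add B e f, LinearMap.add_apply] at hc
  have h3 : B e w = - B f w := by linarith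
  rw [h3] at h2
  nlinarith [sq_nonneg (B f w)]

/-! ### The isomorphism -/

variable {U' : Type} [AddCommGroup U'] [Module ℝ U'] {B' : U' →ₗ[ℝ] U' →ₗ[ℝ] ℝ} {e' f' : U'}

/-- an isomorphism `so(B) → so(B')` -/
structure Iso (B : U →ₗ[ℝ] U →ₗ[ℝ] ℝ) (B' : U' →ₗ[ℝ] U' →ₗ[ℝ] ℝ)
    (Φ : End ℝ U →ₗ[ℝ] End ℝ U') : Prop where
  skew : ∀ y, Skew B y → Skew B' (Φ y)
  inj : ∀ y, Skew B y → Φ y = 0 → y = 0
  surj : ∀ y', Skew B' y' → ∃ y, Skew B y ∧ Φ y = y'
  br : ∀ y z, Skew B y → Skew B z → Φ (y * z - z * y) = Φ y * Φ z - Φ z * Φ y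
  diag : ∀ y, Skew B y → Diag y → Diag (Φ y)

lemma skew_br {y z : End ℝ U} (hy : Skew B y) (hz : Skew B z) : Skew B (y * z - z * y) := by
  intro u v
  have a1 := hy (z u) v
  have a2 := hz (y u) v
  have a3 := hy u (z v)
  have a4 := hz u (y v)
  simp only [LinearMap.sub_apply, Module.End.mul_apply, map_sub]
  linarith

lemma skew_smul {y : End ℝ U} (hy : Skew B y) (t : ℝ) : Skew B (t • y) := by
  intro u v
  have a1 := hy u v
  simp only [LinearMap.smul_apply, map_smul, smul_eq_mul]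
  linear_combination t * a1

lemma skew_sub {y z : End ℝ U} (hy : Skew B y) (hz : Skew B z) : Skew B (y - z) := by
  intro u v
  have a1 := hy u v
  have a2 := hz u v
  simp only [LinearMap.sub_apply, map_sub]
  linear_combination a1 - a2

/-- the graph -/
lemma graph (R : Submodule ℝ (End ℝ U × End ℝ U'))
    (h1 : ∀ p ∈ R, Skew B p.1 ∧ Skew B' p.2)
    (h2 : ∀ p ∈ R, ∀ q ∈ R,
      ((p.1 * q.1 - q.1 * p.1, p.2 * q.2 - q.2 * p.2) : End ℝ U × End ℝ U') ∈ R)
    (h3 : ∀ y, Skew B y → ∃ y', ((y, y') : End ℝ U × End ℝ U') ∈ R)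
    (h4 : ∀ y', Skew B' y' → ∃ y, ((y, y') : End ℝ U × End ℝ U') ∈ R)
    (h5 : ∀ p ∈ R, p.1 = 0 → p.2 = 0) (h6 : ∀ p ∈ R, p.2 = 0 → p.1 = 0)
    (h7 : ∀ p ∈ R, Diag p.1 → Diag p.2) :
    ∃ Φ : End ℝ U →ₗ[ℝ] End ℝ U', Iso B B' Φ ∧ ∀ p ∈ R, p.2 = Φ p.1 := by
  let g : R →ₗ[ℝ] End ℝ U := (LinearMap.fst ℝ _ _).comp R.subtype
  have hg : LinearMap.ker g = ⊥ := by
    rw [LinearMap.ker_eq_bot']
    intro p hp
    have a : p.1.1 = 0 := hp
    have b := h5 p.1 p.2 a
    exact Subtype.ext (Prod.ext a b)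
  obtain ⟨s, hs⟩ := LinearMap.exists_leftInverse_of_injective g hg
  let Φ : End ℝ U →ₗ[ℝ] End ℝ U' := ((LinearMap.snd ℝ _ _).comp R.subtype).comp s
  have key : ∀ p ∈ R, p.2 = Φ p.1 := by
    intro p hp
    have a : s (g ⟨p, hp⟩) = ⟨p, hp⟩ := LinearMap.congr_fun hs ⟨p, hp⟩
    change p.2 = (s (g ⟨p, hp⟩)).1.2
    rw [a]
  have mem : ∀ y, Skew B y → ((y, Φ y) : End ℝ U × End ℝ U') ∈ R := by
    intro y hy
    obtain ⟨y', hy'⟩ := h3 y hy
    have := key _ hy'
    simp only at this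
    rw [← this]; exact hy'
  refine ⟨Φ, ⟨fun y hy => (h1 _ (mem y hy)).2, fun y hy h => h6 (y, Φ y) (mem y hy) h, ?_, ?_,
    fun y hy h => h7 (y, Φ y) (mem y hy) h⟩, key⟩
  · intro y' hy'
    obtain ⟨y, hy⟩ := h4 y' hy'
    exact ⟨y, (h1 _ hy).1, (key _ hy).symm⟩
  · intro y z hy hz
    exact (key _ (h2 _ (mem y hy) _ (mem z hz))).symm

section iso

variable {Φ : End ℝ U →ₗ[ℝ] End ℝ U'}

lemma Iso.hom (I : Iso B B' Φ) {x y : End ℝ U} (hx : Skew B x) (hy : Skew B y) {t : ℝ}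
    (h : Pool.Agent.W544.K3.Hom x t y) : Pool.Agent.W544.K3.Hom (Φ x) t (Φ y) := by
  unfold Pool.Agent.W544.K3.Hom at *
  rw [← I.br x y hx hy, h, map_smul]

lemma Iso.hom' (I : Iso B B' Φ) {x y : End ℝ U} (hx : Skew B x) (hy : Skew B y) {t : ℝ}
    (h : Pool.Agent.W544.K3.Hom (Φ x) t (Φ y)) : Pool.Agent.W544.K3.Hom x t y := by
  unfold Pool.Agent.W544.K3.Hom at *
  rw [← I.br x y hx hy, ← map_smul, ← sub_eq_zero, ← map_sub] at h
  exact sub_eq_zero.1 (I.inj _ (skew_sub (skew_br hx hy) (skew_smul hy t)) h)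

lemma wedge_ne (hs : ∀ u v, B u v = B v u) (hnd : ∀ v, (∀ u, B u v = 0) → v = 0) {u v : U}
    (h : wedge B u v = 0) (hu : u ≠ 0) : ∃ k : ℝ, v = k • u := by
  obtain ⟨w, hw⟩ : ∃ w, B u w ≠ 0 := by
    by_contra hcon
    push Not at hcon
    exact hu (hnd u fun w => by rw [hs]; exact hcon w)
  have h1 := LinearMap.congr_fun h w
  rw [wedge_apply, LinearMap.zero_apply, sub_eq_zero] at h1
  refine ⟨(B u w)⁻¹ * B v w, ?_⟩
  rw [mul_smul, ← h1, smul_smul, inv_mul_cancel₀ hw, one_smul]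

/-- the image of `h` -/
lemma image_h [FiniteDimensional ℝ U'] (S : S_struct) (hS : Sig2 B) (hS' : Sig2 B')
    (hd3 : 3 ≤ finrank ℝ U') (hd4 : finrank ℝ U' ≠ 4) (I : Iso B B' Φ) (H : Hyp B e f) :
    ∃ e' f' : U', Hyp B' e' f' ∧ Φ (wedge B f e) = wedge B' f' e' := by
  have hs := hS.1
  have hs' := hS'.1
  have hnd : ∀ v, (∀ u, B u v = 0) → v = 0 := fun v h => Pool.Agent.W505.K3.nondeg hS h
  have hnd' : ∀ v, (∀ u, B' u v = 0) → v = 0 := fun v h => Pool.Agent.W505.K3.nondeg hS' h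
  have hsk := wedge_skew hs f e
  have he0 : e ≠ 0 := by
    intro h; have := H.2.2; rw [h] at this; simp at this
  have hh0 : wedge B f e ≠ 0 := by
    intro h
    have := xe hs H
    rw [h] at this
    exact he0 (by simpa using this.symm)
  have hx0 : Φ (wedge B f e) ≠ 0 := fun h => hh0 (I.inj _ hsk h)
  have T : ∀ (y' : End ℝ U') (t : ℝ), Skew B' y' → y' ≠ 0 →
      Pool.Agent.W544.K3.Hom (Φ (wedge B f e)) t y' → t = 0 ∨ t = 1 ∨ t = -1 := by
    intro y' t hy' h0 h
    obtain ⟨y, hy, rfl⟩ := I.surj y' hy'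
    exact tval hs hnd H hy (I.hom' hsk hy h) (fun h1 => h0 (by rw [h1, map_zero]))
  rcases S U' B' hS' (Φ (wedge B f e)) hx0 (I.skew _ hsk) (I.diag _ hsk (diag_x hs H)) with
    ⟨a, e1, f1, ha, H1, hx⟩ | ⟨a, b, e1, f1, e2, f2, hb, hab, H2, hx⟩
  · obtain ⟨z, hz0, hz⟩ := exists_orth (B := B') ![e1, f1] (show 2 < _ by omega)
    have hz1 : B' e1 z = 0 := hz 0
    have hz2 : B' f1 z = 0 := hz 1
    have hw0 : wedge B' e1 z ≠ 0 := by
      intro h
      have h1 := LinearMap.congr_fun h f1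
      rw [wedge_apply, H1.2.2, hs' z f1, hz2] at h1
      exact hz0 (by simpa using h1)
    have h1 : Pool.Agent.W544.K3.Hom (Φ (wedge B f e)) a (wedge B' e1 z) := by
      have := hom_e hs' H1 hz1 hz2
      unfold Pool.Agent.W544.K3.Hom at *
      rw [hx, smul_mul_assoc, mul_smul_comm, ← smul_sub, this, one_smul]
    rcases T _ a (wedge_skew hs' e1 z) hw0 h1 with h | h | h
    · exact absurd h ha
    · exact ⟨e1, f1, H1, by rw [hx, h, one_smul]⟩
    · exact ⟨f1, e1, hyp_swap hs' H1, by rw [hx, h, wedge_swap, smul_neg, neg_smul, one_smul,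
        neg_neg]⟩
  · exfalso
    obtain ⟨-, G1, G2, o1, o2, o3, o4, -⟩ := H2
    -- the dimension is at least 4
    have hd : 4 ≤ finrank ℝ U' := by
      by_contra hlt
      push Not at hlt
      let L : (Fin 4 → ℝ) →ₗ[ℝ] U' := Fintype.linearCombination ℝ ![e1, f1, e2, f2]
      have hker : LinearMap.ker L ≠ ⊥ := LinearMap.ker_ne_bot_of_finrank_lt (by simpa using hlt)
      obtain ⟨c, hc, hc0⟩ := (Submodule.ne_bot_iff _).1 hker
      rw [LinearMap.mem_ker] at hc
      have hL : c 0 • e1 + c 1 • f1 + c 2 • e2 + c 3 • f2 = 0 := by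
        have : L c = ∑ i, c i • (![e1, f1, e2, f2] : Fin 4 → U') i :=
          Fintype.linearCombination_apply ℝ _ c
        rw [hc, Fin.sum_univ_four] at this
        simpa using this.symm
      have k0 := congrArg (fun t => B' f1 t) hL
      have k1 := congrArg (fun t => B' e1 t) hL
      have k2 := congrArg (fun t => B' f2 t) hL
      have k3 := congrArg (fun t => B' e2 t) hL
      simp only [map_add, map_smul, smul_eq_mul, G1.1, G1.2.1, G1.2.2, G2.1, G2.2.1, G2.2.2, o1, o2,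
        o3, o4, hs' f1 e1, hs' f2 e2, hs' e2 e1, hs' e2 f1, hs' f2 e1, hs' f2 f1, map_zero,
        mul_zero, mul_one, add_zero, zero_add] at k0 k1 k2 k3
      apply hc0
      funext i
      match i with
      | 0 => exact k0
      | 1 => exact k1
      | 2 => exact k2
      | 3 => exact k3
    obtain ⟨z, hz0, hz⟩ := exists_orth (B := B') ![e1, f1, e2, f2] (show 4 < _ by omega)
    have hz1 : B' e1 z = 0 := hz 0
    have hz2 : B' f1 z = 0 := hz 1
    have hz3 : B' e2 z = 0 := hz 2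
    have hz4 : B' f2 z = 0 := hz 3
    have hsx : Skew B' (Φ (wedge B f e)) := I.skew _ hsk
    have xe1 : Φ (wedge B f e) e1 = a • e1 := by
      rw [hx, LinearMap.add_apply, LinearMap.smul_apply, LinearMap.smul_apply, xe hs' G1,
        xz (by rw [hs']; exact o1) (by rw [hs']; exact o2), smul_zero, add_zero]
    have xe2 : Φ (wedge B f e) e2 = b • e2 := by
      rw [hx, LinearMap.add_apply, LinearMap.smul_apply, LinearMap.smul_apply, xe hs' G2,
        xz o1 o3, smul_zero, zero_add]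
    have xz' : Φ (wedge B f e) z = 0 := by
      rw [hx, LinearMap.add_apply, LinearMap.smul_apply, LinearMap.smul_apply, xz hz1 hz2,
        xz hz3 hz4, smul_zero, smul_zero, add_zero]
    have hw00 : ∀ v, wedge B' v 0 = 0 := fun v => by ext w; simp [wedge_apply]
    have t1 : a = 0 ∨ a = 1 ∨ a = -1 := by
      refine T (wedge B' e1 z) a (wedge_skew hs' _ _) ?_ ?_
      · intro h
        have h1 := LinearMap.congr_fun h f1
        rw [wedge_apply, G1.2.2, hs' z f1, hz2] at h1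
        exact hz0 (by simpa using h1)
      · unfold Pool.Agent.W544.K3.Hom
        rw [comm_wedge hs' hsx, xe1, xz', hw00, add_zero, wedge_smul_left]
    have t2 : b = 0 ∨ b = 1 ∨ b = -1 := by
      refine T (wedge B' e2 z) b (wedge_skew hs' _ _) ?_ ?_
      · intro h
        have h1 := LinearMap.congr_fun h f2
        rw [wedge_apply, G2.2.2, hs' z f2, hz4] at h1
        exact hz0 (by simpa using h1)
      · unfold Pool.Agent.W544.K3.Hom
        rw [comm_wedge hs' hsx, xe2, xz', hw00, add_zero, wedge_smul_left]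
    have t3 : a + b = 0 ∨ a + b = 1 ∨ a + b = -1 := by
      refine T (wedge B' e1 e2) (a + b) (wedge_skew hs' _ _) ?_ ?_
      · intro h
        have h1 := LinearMap.congr_fun h f1
        rw [wedge_apply, G1.2.2, hs' e2 f1, o3] at h1
        have h2 : e2 = 0 := by simpa using h1
        have h3 := G2.2.2
        rw [h2] at h3
        simp at h3
      · unfold Pool.Agent.W544.K3.Hom
        rw [comm_wedge hs' hsx, xe1, xe2, wedge_smul_left, wedge_smul_right, add_smul]
    rcases t1 with h | h | h <;> rcases t2 with h' | h' | h' <;>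
      rcases t3 with h'' | h'' | h'' <;> linarith

/-- `P u = Φ (e ∧ u) f'` -/
def PP (B : U →ₗ[ℝ] U →ₗ[ℝ] ℝ) (Φ : End ℝ U →ₗ[ℝ] End ℝ U') (e : U) (f' : U') : U →ₗ[ℝ] U' where
  toFun u := Φ (wedge B e u) f'
  map_add' u v := by rw [wedge_add_right, map_add, LinearMap.add_apply]
  map_smul' c u := by rw [wedge_smul_right, map_smul, LinearMap.smul_apply]; rfl

lemma PP_spec (hs : ∀ u v, B u v = B v u) (hs' : ∀ u v, B' u v = B' v u) (I : Iso B B' Φ)
    (H : Hyp B e f) (H' : Hyp B' e' f') (hh : Φ (wedge B f e) = wedge B' f' e') {z : U}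
    (h1 : B e z = 0) (h2 : B f z = 0) :
    Φ (wedge B e z) = wedge B' e' (PP B Φ e f' z) ∧ B' e' (PP B Φ e f' z) = 0 ∧
      B' f' (PP B Φ e f' z) = 0 := by
  have h3 := I.hom (wedge_skew hs f e) (wedge_skew hs e z) (hom_e hs H h1 h2)
  rw [hh] at h3
  exact deg_pos hs' H' (I.skew _ (wedge_skew hs e z)) h3

lemma brk (hs : ∀ u v, B u v = B v u) (H : Hyp B e f) {z z2 : U} (h2 : B f z = 0)
    (h3 : B e z2 = 0) :
    wedge B e z * wedge B f z2 - wedge B f z2 * wedge B e z =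
      wedge B z z2 - B z z2 • wedge B f e := by
  rw [comm_wedge hs (wedge_skew hs e z)]
  have c2 : wedge B e z f = z := by
    rw [wedge_apply, H.2.2, hs z f, h2]; simp
  have c3 : wedge B e z z2 = -(B z z2) • e := by
    rw [wedge_apply, h3]; simp
  rw [c2, c3, wedge_smul_right, neg_smul, sub_eq_add_neg]

lemma span_wedge [FiniteDimensional ℝ U] (hS : Sig2 B) (n : Submodule ℝ (End ℝ U))
    (W : ∀ u v, wedge B u v ∈ n) {y : End ℝ U} (hy : Skew B y) : y ∈ n := by
  have hs := hS.1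
  have nd := Pool.Agent.W481.K3.nondeg hS
  let b := Module.finBasis ℝ U
  let b' := LinearMap.BilinForm.dualBasis B nd b
  have hb : ∀ i j, B (b' i) (b j) = if j = i then 1 else 0 := fun i j =>
    LinearMap.BilinForm.apply_dualBasis_left nd b i j
  have e1 : ∀ w : U, ∑ i, B (b' i) w • b i = w := by
    intro w
    conv_rhs => rw [← b.sum_repr w]
    refine Finset.sum_congr rfl fun i _ => ?_
    congr 1
    conv_lhs => rw [← b.sum_repr w]
    rw [map_sum]
    simp [hb]
  have e2 : ∀ w : U, ∑ i, B (b i) w • b' i = w := by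
    intro w
    conv_rhs => rw [← b'.sum_repr w]
    refine Finset.sum_congr rfl fun i _ => ?_
    congr 1
    rw [hs]
    exact (LinearMap.BilinForm.dualBasis_repr_apply nd b w i).symm
  have e3 : (2 : ℝ) • y = ∑ i, wedge B (b' i) (y (b i)) := by
    ext w
    rw [LinearMap.sum_apply]
    simp only [wedge_apply, Finset.sum_sub_distrib, LinearMap.smul_apply]
    have s1 : ∑ i, B (b' i) w • y (b i) = y w := by
      conv_rhs => rw [← e1 w]
      simp
    have s2 : ∑ i, B (y (b i)) w • b' i = - y w := by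
      have : ∀ i, B (y (b i)) w = - B (b i) (y w) := fun i => by
        have := hy (b i) w; linarith
      simp only [this, neg_smul, Finset.sum_neg_distrib]
      rw [e2 (y w)]
    rw [s1, s2, sub_neg_eq_add, two_smul]
  have e4 : (2 : ℝ) • y ∈ n := by
    rw [e3]; exact n.sum_mem fun i _ => W _ _
  have := n.smul_mem (2⁻¹ : ℝ) e4
  rwa [smul_smul, inv_mul_cancel₀ (by norm_num : (2 : ℝ) ≠ 0), one_smul] at this

lemma all_w (hs : ∀ u v, B u v = B v u) (H : Hyp B e f) (n : Submodule ℝ (End ℝ U))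
    (hx : wedge B f e ∈ n)
    (A1 : ∀ z, B e z = 0 → B f z = 0 → wedge B f z ∈ n)
    (A2 : ∀ z, B e z = 0 → B f z = 0 → wedge B e z ∈ n)
    (A3 : ∀ z z', B e z = 0 → B f z = 0 → B e z' = 0 → B f z' = 0 → wedge B z z' ∈ n)
    (u v : U) : wedge B u v ∈ n := by
  have hx' : wedge B e f ∈ n := by rw [wedge_swap]; exact n.neg_mem hx
  have A4 : ∀ u, wedge B e u ∈ n := by
    intro u
    rw [dec B e f u, wedge_add_right, wedge_add_right, wedge_smul_right, wedge_smul_right,
      wedge_self]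
    refine n.add_mem (n.add_mem (n.smul_mem _ n.zero_mem) (n.smul_mem _ hx'))
      (A2 _ (zc_e hs H u) (zc_f hs H u))
  have A5 : ∀ u, wedge B f u ∈ n := by
    intro u
    rw [dec B e f u, wedge_add_right, wedge_add_right, wedge_smul_right, wedge_smul_right,
      wedge_self]
    refine n.add_mem (n.add_mem (n.smul_mem _ hx) (n.smul_mem _ n.zero_mem))
      (A1 _ (zc_e hs H u) (zc_f hs H u))
  have A6 : ∀ z, B e z = 0 → B f z = 0 → ∀ u, wedge B z u ∈ n := by
    intro z h1 h2 u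
    rw [dec B e f u, wedge_add_right, wedge_add_right, wedge_smul_right, wedge_smul_right]
    refine n.add_mem (n.add_mem (n.smul_mem _ ?_) (n.smul_mem _ ?_))
      (A3 _ _ h1 h2 (zc_e hs H u) (zc_f hs H u))
    · rw [wedge_swap]; exact n.neg_mem (A4 z)
    · rw [wedge_swap]; exact n.neg_mem (A5 z)
  rw [dec B e f u, wedge_add_left, wedge_add_left, wedge_smul_left, wedge_smul_left]
  exact n.add_mem (n.add_mem (n.smul_mem _ (A4 v)) (n.smul_mem _ (A5 v)))
    (A6 _ (zc_e hs H u) (zc_f hs H u) v)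

/-- positivity of the factor -/
lemma kpos [FiniteDimensional ℝ U] (hS : Sig2 B) (hS' : Sig2 B') (H : Hyp B e f)
    (H' : Hyp B' e' f') (hd : finrank ℝ U ≠ 4) (P : U →ₗ[ℝ] U')
    (hP1 : ∀ z, B e z = 0 → B f z = 0 → B' e' (P z) = 0 ∧ B' f' (P z) = 0)
    (hsurj : ∀ z', B' e' z' = 0 → B' f' z' = 0 → ∃ z, B e z = 0 ∧ B f z = 0 ∧ P z = z')
    (k : ℝ)
    (hk : ∀ z w, B e z = 0 → B f z = 0 → B e w = 0 → B f w = 0 → k * B' (P z) (P w) = B z w) :
    0 < k := by
  have hs := hS.1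
  have hs' := hS'.1
  obtain ⟨z0, hz0e, hz0f, hz0⟩ := posZ hS H
  obtain ⟨z1', hz1e', hz1f', hz1'⟩ := posZ hS' H'
  obtain ⟨z1, hz1e, hz1f, hz1⟩ := hsurj z1' hz1e' hz1f'
  by_contra hcon
  push Not at hcon
  have hkne : k < 0 := by
    rcases lt_or_eq_of_le hcon with h | h
    · exact h
    · have := hk z0 z0 hz0e hz0f hz0e hz0f
      rw [h, zero_mul] at this
      linarith
  have hz1neg : B z1 z1 < 0 := by
    have := hk z1 z1 hz1e hz1f hz1e hz1f
    rw [hz1] at this
    rw [← this]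
    exact mul_neg_of_neg_of_pos hkne hz1'
  have hd4 : 4 ≤ finrank ℝ U := by
    by_contra hlt
    push Not at hlt
    let L : (Fin 4 → ℝ) →ₗ[ℝ] U := Fintype.linearCombination ℝ ![e, f, z0, z1]
    have hker : LinearMap.ker L ≠ ⊥ := LinearMap.ker_ne_bot_of_finrank_lt (by simpa using hlt)
    obtain ⟨c, hc, hc0⟩ := (Submodule.ne_bot_iff _).1 hker
    rw [LinearMap.mem_ker] at hc
    have hL : c 0 • e + c 1 • f + c 2 • z0 + c 3 • z1 = 0 := by
      have : L c = ∑ i, c i • (![e, f, z0, z1] : Fin 4 → U) i :=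
        Fintype.linearCombination_apply ℝ _ c
      rw [hc, Fin.sum_univ_four] at this
      simpa using this.symm
    have k0 := congrArg (fun t => B f t) hL
    have k1 := congrArg (fun t => B e t) hL
    simp only [map_add, map_smul, smul_eq_mul, H.1, H.2.1, H.2.2, hs f e, hz0e, hz0f, hz1e, hz1f,
      map_zero, mul_zero, mul_one, add_zero, zero_add] at k0 k1
    rw [k0, k1, zero_smul, zero_smul, zero_add, zero_add] at hL
    have h1 : c 2 • z0 = -(c 3 • z1) := eq_neg_of_add_eq_zero_left hL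
    have h2 : B (c 2 • z0) (c 2 • z0) = B (-(c 3 • z1)) (-(c 3 • z1)) := by rw [h1]
    simp only [map_neg, map_smul, LinearMap.neg_apply, LinearMap.smul_apply, smul_eq_mul] at h2
    have k2 : c 2 = 0 := by
      by_contra hne
      have : 0 < c 2 * c 2 * B z0 z0 := mul_pos (mul_self_pos.2 hne) hz0
      nlinarith [mul_self_nonneg (c 3)]
    have k3 : c 3 = 0 := by
      by_contra hne
      have : c 3 * c 3 * B z1 z1 < 0 := mul_neg_of_pos_of_neg (mul_self_pos.2 hne) hz1neg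
      nlinarith [mul_self_nonneg (c 2)]
    apply hc0
    funext i
    match i with
    | 0 => exact k0
    | 1 => exact k1
    | 2 => exact k2
    | 3 => exact k3
  have hd5 : 5 ≤ finrank ℝ U := by omega
  have negv : ∀ v, v ≠ 0 → B e v = 0 → B f v = 0 → B z0 v = 0 → B v v < 0 := by
    intro v hv g1 g2 g3
    by_contra hcon
    push Not at hcon
    refine Pool.Agent.W505.K3.three hS (w1 := e + f) (w2 := z0) (w3 := v)
      (by rw [Pool.Agent.W505.K3.hyp_add hs H]; norm_num) hz0 hcon hv ?_ ?_ g3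
    · rw [map_add, LinearMap.add_apply, hz0e, hz0f, add_zero]
    · rw [map_add, LinearMap.add_apply, g1, g2, add_zero]
  obtain ⟨v1, hv10, hv1⟩ := exists_orth (B := B) ![e, f, z0] (show 3 < _ by omega)
  have v1e : B e v1 = 0 := hv1 0
  have v1f : B f v1 = 0 := hv1 1
  have v1z : B z0 v1 = 0 := hv1 2
  obtain ⟨v2, hv20, hv2⟩ := exists_orth (B := B) ![e, f, z0, v1] (show 4 < _ by omega)
  have v2e : B e v2 = 0 := hv2 0
  have v2f : B f v2 = 0 := hv2 1
  have v2z : B z0 v2 = 0 := hv2 2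
  have v2v : B v1 v2 = 0 := hv2 3
  have n1 := negv v1 hv10 v1e v1f v1z
  have n2 := negv v2 hv20 v2e v2f v2z
  have p1 : 0 < B' (P v1) (P v1) := by
    have := hk v1 v1 v1e v1f v1e v1f
    by_contra hc
    push Not at hc
    nlinarith [mul_nonneg_of_nonpos_of_nonpos hkne.le hc]
  have p2 : 0 < B' (P v2) (P v2) := by
    have := hk v2 v2 v2e v2f v2e v2f
    by_contra hc
    push Not at hc
    nlinarith [mul_nonneg_of_nonpos_of_nonpos hkne.le hc]
  have p3 : B' (P v1) (P v2) = 0 := by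
    have := hk v1 v2 v1e v1f v2e v2f
    rw [v2v] at this
    exact (mul_eq_zero.1 this).resolve_left hkne.ne
  have q1 := hP1 v1 v1e v1f
  have q2 := hP1 v2 v2e v2f
  refine Pool.Agent.W505.K3.three hS' (w1 := P v1) (w2 := P v2) (w3 := e' + f') p1 p2
    (by rw [Pool.Agent.W505.K3.hyp_add hs' H']; norm_num) ?_ p3 ?_ ?_
  · intro h
    have := Pool.Agent.W505.K3.hyp_add hs' H'
    rw [h] at this
    simp at this
  · rw [map_add, hs' (P v1) e', hs' (P v1) f', q1.1, q1.2, add_zero]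
  · rw [map_add, hs' (P v2) e', hs' (P v2) f', q2.1, q2.2, add_zero]

end iso

theorem rigid : S_struct → S_rigid := by
  intro S U U' _ _ _ _ _ _ B B' hS hS' hU3 hU4 hU3' hU4' R h1 h2 h3 h4 h5 h6 h7
  obtain ⟨Φ, I, hR⟩ := graph R h1 h2 h3 h4 h5 h6 h7
  have hs := hS.1
  have hs' := hS'.1
  have hnd : ∀ v, (∀ u, B u v = 0) → v = 0 := fun v h => Pool.Agent.W505.K3.nondeg hS h
  have hnd' : ∀ v, (∀ u, B' u v = 0) → v = 0 := fun v h => Pool.Agent.W505.K3.nondeg hS' h
  obtain ⟨e, f, H⟩ := exists_hyp hS hU3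
  obtain ⟨e', f', H', hh⟩ := image_h S hS hS' hU3' hU4' I H
  have hh' : Φ (wedge B e f) = wedge B' e' f' := by
    rw [wedge_swap, map_neg, hh, ← wedge_swap]
  set P := PP B Φ e f' with hPdef
  set Q := PP B Φ f e' with hQdef
  have hP : ∀ z, B e z = 0 → B f z = 0 → Φ (wedge B e z) = wedge B' e' (P z) ∧
      B' e' (P z) = 0 ∧ B' f' (P z) = 0 := fun z a b => PP_spec hs hs' I H H' hh a b
  have hQ : ∀ z, B e z = 0 → B f z = 0 → Φ (wedge B f z) = wedge B' f' (Q z) ∧
      B' f' (Q z) = 0 ∧ B' e' (Q z) = 0 := fun z a b =>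
    PP_spec hs hs' I (hyp_swap hs H) (hyp_swap hs' H') hh' b a
  have he'0 : e' ≠ 0 := by
    intro h; have := H'.2.2; rw [h] at this; simp at this
  -- the bracket
  have hbr : ∀ z z2, B e z = 0 → B f z = 0 → B e z2 = 0 → B f z2 = 0 →
      Φ (wedge B z z2) = wedge B' (P z) (Q z2) +
        (B z z2 - B' (P z) (Q z2)) • wedge B' f' e' := by
    intro z z2 a b c d
    have h1 := I.br _ _ (wedge_skew hs e z) (wedge_skew hs f z2)
    rw [brk hs H b c, (hP z a b).1, (hQ z2 c d).1, brk hs' H' (hP z a b).2.2 (hQ z2 c d).2.2,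
      map_sub, map_smul, hh] at h1
    rw [sub_eq_iff_eq_add] at h1
    rw [h1, sub_smul]
    abel
  have hzz : ∀ z, B e z = 0 → B f z = 0 → B' (P z) (Q z) = B z z ∧
      wedge B' (P z) (Q z) = 0 := by
    intro z a b
    have h1 := hbr z z a b a b
    rw [wedge_self, map_zero] at h1
    have h2 := LinearMap.congr_fun h1 e'
    rw [LinearMap.zero_apply, LinearMap.add_apply, LinearMap.smul_apply, xe hs' H', wedge_apply,
      hs' (P z) e', hs' (Q z) e', (hP z a b).2.1, (hQ z a b).2.2, zero_smul, zero_smul, sub_zero,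
      zero_add] at h2
    have h3 := (smul_eq_zero.1 h2.symm).resolve_right he'0
    rw [h3, zero_smul, add_zero] at h1
    exact ⟨(sub_eq_zero.1 h3).symm, h1.symm⟩
  -- injectivity
  have hinj : ∀ z, B e z = 0 → B f z = 0 → P z = 0 → z = 0 := by
    intro z a b h
    have h1 := (hP z a b).1
    rw [h] at h1
    have h2 : wedge B' e' 0 = 0 := by ext w; simp [wedge_apply]
    rw [h2] at h1
    have h3 := I.inj _ (wedge_skew hs e z) h1
    have h4 := LinearMap.congr_fun h3 f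
    rw [wedge_apply, H.2.2, hs z f, b] at h4
    simpa using h4
  have hsurj : ∀ z', B' e' z' = 0 → B' f' z' = 0 → ∃ z, B e z = 0 ∧ B f z = 0 ∧ P z = z' := by
    intro z' a b
    obtain ⟨y, hy, hy'⟩ := I.surj _ (wedge_skew hs' e' z')
    have h1 := hom_e hs' H' a b
    rw [← hh, ← hy'] at h1
    obtain ⟨g1, g2, g3⟩ := deg_pos hs H hy (I.hom' (wedge_skew hs f e) hy h1)
    refine ⟨y f, g2, g3, ?_⟩
    change Φ (wedge B e (y f)) f' = z'
    rw [← g1, hy', wedge_apply, H'.2.2, hs' z' f', b]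
    simp
  -- proportionality
  let Z : Submodule ℝ U := LinearMap.ker (B e) ⊓ LinearMap.ker (B f)
  have hZ : ∀ z, z ∈ Z ↔ B e z = 0 ∧ B f z = 0 := fun z => by
    simp only [Z, Submodule.mem_inf, LinearMap.mem_ker]
  obtain ⟨k, hk⟩ := scal P Q Z (fun z hz h => hinj z ((hZ z).1 hz).1 ((hZ z).1 hz).2 h) (by
    intro z hz
    obtain ⟨a, b⟩ := (hZ z).1 hz
    by_cases h0 : P z = 0
    · refine ⟨0, ?_⟩
      rw [hinj z a b h0]; simp
    · exact wedge_ne hs' hnd' (hzz z a b).2 h0)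
  have hkz : ∀ z, B e z = 0 → B f z = 0 → Q z = k • P z := fun z a b => hk z ((hZ z).2 ⟨a, b⟩)
  have hk1 : ∀ z, B e z = 0 → B f z = 0 → k * B' (P z) (P z) = B z z := by
    intro z a b
    have := (hzz z a b).1
    rw [hkz z a b, map_smul, smul_eq_mul] at this
    exact this
  have hk2 : ∀ z w, B e z = 0 → B f z = 0 → B e w = 0 → B f w = 0 →
      k * B' (P z) (P w) = B z w := by
    intro z w a b c d
    have g1 := hk1 z a b
    have g2 := hk1 w c d
    have g3 := hk1 (z + w) (by rw [map_add, a, c, add_zero]) (by rw [map_add, b, d, add_zero])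
    simp only [map_add, LinearMap.add_apply, hs w z, hs' (P w) (P z)] at g3
    linarith
  have hkp : 0 < k := kpos hS hS' H H' hU4 P (fun z a b => (hP z a b).2) hsurj k hk2
  set c := √k with hc
  have hcc : c * c = k := Real.mul_self_sqrt hkp.le
  have hc0 : c ≠ 0 := (Real.sqrt_pos.2 hkp).ne'
  -- the new hyperbolic pair
  have H2 : Hyp B' (c⁻¹ • e') (c • f') := by
    refine ⟨?_, ?_, ?_⟩
    · simp [H'.1]
    · simp [H'.2.1]
    · simp only [map_smul, LinearMap.smul_apply, H'.2.2, smul_eq_mul]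
      field_simp
  obtain ⟨Ψ, hΨ⟩ : ∃ Ψ : U →ₗ[ℝ] U', ∀ u, Ψ u = B f u • (c⁻¹ • e') + B e u • (c • f') +
      c • P (zc B e f u) :=
    ⟨(B f).smulRight (c⁻¹ • e') + (B e).smulRight (c • f') + c • (P.comp (zc B e f)),
      fun u => rfl⟩
  have hPZ := fun u => hP (zc B e f u) (zc_e hs H u) (zc_f hs H u)
  have hΨe : ∀ u, B' (c⁻¹ • e') (Ψ u) = B e u := by
    intro u
    rw [hΨ]
    simp only [map_add, map_smul, LinearMap.smul_apply, smul_eq_mul, H'.1, H'.2.2, (hPZ u).2.1,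
      mul_zero, mul_one, zero_add, add_zero]
    field_simp
  have hΨf : ∀ u, B' (c • f') (Ψ u) = B f u := by
    intro u
    rw [hΨ]
    simp only [map_add, map_smul, LinearMap.smul_apply, smul_eq_mul, H'.2.1, hs' f' e', H'.2.2,
      (hPZ u).2.2, mul_zero, mul_one, add_zero]
    field_simp
  have hΨz : ∀ u, zc B' (c⁻¹ • e') (c • f') (Ψ u) = c • P (zc B e f u) := by
    intro u
    rw [zc_apply, hΨe, hΨf, hΨ]
    abel
  have hiso : ∀ u v, B' (Ψ u) (Ψ v) = B u v := by
    intro u v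
    rw [form_dec hs' H2, hΨe, hΨe, hΨf, hΨf, hΨz, hΨz, form_dec hs H u v,
      ← hk2 _ _ (zc_e hs H u) (zc_f hs H u) (zc_e hs H v) (zc_f hs H v), ← hcc]
    simp only [map_smul, LinearMap.smul_apply, smul_eq_mul]
    ring
  have hΨinj : Function.Injective Ψ := by
    rw [injective_iff_map_eq_zero]
    intro u hu
    apply hnd
    intro v
    rw [hs, ← hiso, hu]
    simp
  have hΨsurj : Function.Surjective Ψ := by
    intro u'
    obtain ⟨z, a, b, hz⟩ := hsurj (zc B' (c⁻¹ • e') (c • f') u') (by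
      have := zc_e hs' H2 u'
      rw [map_smul, LinearMap.smul_apply, smul_eq_mul] at this
      exact (mul_eq_zero.1 this).resolve_left (inv_ne_zero hc0)) (by
      have := zc_f hs' H2 u'
      rw [map_smul, LinearMap.smul_apply, smul_eq_mul] at this
      exact (mul_eq_zero.1 this).resolve_left hc0)
    refine ⟨B' (c • f') u' • e + B' (c⁻¹ • e') u' • f + c⁻¹ • z, ?_⟩
    have g1 : B e (B' (c • f') u' • e + B' (c⁻¹ • e') u' • f + c⁻¹ • z) =
        B' (c⁻¹ • e') u' := by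
      rw [map_add, map_add, map_smul (B e), map_smul (B e), map_smul (B e), H.1, H.2.2, a]
      simp
    have g2 : B f (B' (c • f') u' • e + B' (c⁻¹ • e') u' • f + c⁻¹ • z) =
        B' (c • f') u' := by
      rw [map_add, map_add, map_smul (B f), map_smul (B f), map_smul (B f), hs f e, H.2.1, H.2.2, b]
      simp
    have g3 : zc B e f (B' (c • f') u' • e + B' (c⁻¹ • e') u' • f + c⁻¹ • z) = c⁻¹ • z := by
      rw [zc_apply, g1, g2]; abel
    have g4 : c • P (c⁻¹ • z) = P z := by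
      rw [map_smul, smul_smul, mul_inv_cancel₀ hc0, one_smul]
    rw [hΨ, g1, g2, g3, g4, hz]
    exact (dec B' (c⁻¹ • e') (c • f') u').symm
  refine ⟨LinearEquiv.ofBijective Ψ ⟨hΨinj, hΨsurj⟩, hiso, ?_⟩
  -- the operators compatible with `Ψ`
  let T : Submodule ℝ (End ℝ U) :=
    { carrier := {y | ∀ u, Φ y (Ψ u) = Ψ (y u)}
      zero_mem' := by intro u; simp
      add_mem' := by
        intro y z hy hz u
        rw [map_add Φ, LinearMap.add_apply, LinearMap.add_apply, map_add Ψ, hy u, hz u]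
      smul_mem' := by
        intro t y hy u
        rw [map_smul, LinearMap.smul_apply, LinearMap.smul_apply, map_smul, hy u] }
  have hT : ∀ y, y ∈ T ↔ ∀ u, Φ y (Ψ u) = Ψ (y u) := fun y => Iff.rfl
  have key : ∀ u v, Φ (wedge B u v) = wedge B' (Ψ u) (Ψ v) → wedge B u v ∈ T := by
    intro u v h
    rw [hT]
    intro w
    rw [h, wedge_apply, wedge_apply, hiso, hiso, map_sub, map_smul, map_smul]
  have Ψe : Ψ e = c⁻¹ • e' := by
    rw [hΨ, zc_self_e H hs, H.1, hs f e, H.2.2]; simp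
  have Ψf : Ψ f = c • f' := by
    rw [hΨ, zc_self_f H hs, H.2.1, H.2.2]; simp
  have Ψz : ∀ z, B e z = 0 → B f z = 0 → Ψ z = c • P z := by
    intro z a b
    rw [hΨ, zc_of z a b, a, b]; simp
  have T0 : wedge B f e ∈ T := by
    apply key
    rw [hh, Ψe, Ψf, wedge_smul_left, wedge_smul_right, smul_smul, mul_inv_cancel₀ hc0, one_smul]
  have T1 : ∀ z, B e z = 0 → B f z = 0 → wedge B f z ∈ T := by
    intro z a b
    apply key
    rw [(hQ z a b).1, hkz z a b, Ψf, Ψz z a b, wedge_smul_left, wedge_smul_right,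
      wedge_smul_right, smul_smul, hcc]
  have T2 : ∀ z, B e z = 0 → B f z = 0 → wedge B e z ∈ T := by
    intro z a b
    apply key
    rw [(hP z a b).1, Ψe, Ψz z a b, wedge_smul_left, wedge_smul_right, smul_smul,
      inv_mul_cancel₀ hc0, one_smul]
  have T3 : ∀ z z', B e z = 0 → B f z = 0 → B e z' = 0 → B f z' = 0 → wedge B z z' ∈ T := by
    intro z z' a b c' d
    apply key
    rw [hbr z z' a b c' d, hkz z' c' d, Ψz z a b, Ψz z' c' d, map_smul, smul_eq_mul,
      hk2 z z' a b c' d, sub_self, zero_smul, add_zero, wedge_smul_left, wedge_smul_right,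
      wedge_smul_right, smul_smul, hcc]
  intro p hp u
  have h8 : p.1 ∈ T := span_wedge hS T (all_w hs H T T0 T1 T2 T3) (h1 p hp).1
  change p.2 (Ψ u) = Ψ (p.1 u)
  rw [hR p hp]
  exact h8 u

end

end Pool.W335.K3
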